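import Pool.Agent.helper89.Flex.AD2
import Pool.Agent.helper89.Flex.NotAOSD

/-!
# A flexible smooth affine variety with the algebraic density property but without the algebraic
overshear density property

The example is `X = Spec A` with `A` the algebra of all finite sums `∑ f_u(z) χ^u`, where
`u = (u₀, u₁, u₂, u₃) ∈ ℤ⁴` with `u₀ + u₂ = u₁ + u₃`, where `f_u ∈ ℂ[z]` is divisible by
`(z - i)^κ(u_i)` for `i = 0, 1, 2, 3`, and where `κ(n) = max (0, ⌈-n/2⌉)`.  All overshear fields of
`X` preserve the span of the components with `u₀ + u₂ ≥ 0`.
-/

namespace Pool.Agent.Results.MP_591370_ag.FlexADNotAOSD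

open Pool.Agent.helper89.Flex

/-- **Result.** There is a smooth irreducible affine variety over `ℂ` (with coordinate ring `A`)
which is flexible and has the algebraic density property, but does not have the algebraic overshear
density property. -/
theorem result : ∃ (A : Type) (_ : CommRing A) (_ : Algebra ℂ A),
    IsDomain A ∧ Algebra.Smooth ℂ A ∧ IsFlexible A ∧ HasAD A ∧ ¬ HasAOSD A :=
  ⟨Pool.Agent.helper89.Flex.A, inferInstance, inferInstance, inferInstance, smooth_A, flexible_A,
    AD_A, not_AOSD⟩

end Pool.Agent.Results.MP_591370_ag.FlexADNotAOSD
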